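import Mathlib
import Pool.Agent.R343.LV3

set_option autoImplicit false

/-!
# The truncated inequality of Vojta for integral points with compressible digits on root stacks

A word of letters is cut into `z` phrases (`LZ a N z`, Lempel and Ziv) if each phrase is a single
letter, or a (possibly empty) copy of a block that begins further to the left; the block may
overlap the phrase. For instance the word `u v ^ m w` has a number of phrases which does not depend
on `m`.

The setting and the definitions are those of `MP_a41896_nt.RootStacksSparse`: `X` is a smooth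
projective variety of dimension `N` in `ℙ^(N + s)` over `ℚ` with the equations `G k = 0`,
`D_1, …, D_q` are divisors of `X` with strict normal crossings, `D_i` with the equations `F i j = 0`,
`j < w`. The stack is the root stack of `X` along the `D_i`, `i ∈ I0`, with the multiplicities `m i`,
and `𝒟` is the sum of the `D_i`, `i ∉ I0`. A factorisation `F i j (x) = c i j * ∏ l, y l ^ ex i l`,
with exponents `ex i l` divisible by `m i` for `i ∈ I0` and `c i j`, `j < w`, without common prime
divisors outside `S` for `i ∈ I0`, makes `x` an integral point of the stack.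

1. Let bases for all coordinates and all factors, `z` and `δ > 0` be given. There are a form `Φ`
   that does not vanish on `X` and a constant `C` such that for all rational points `x` of `X` off the
   `D_i` and off `Φ = 0` and all such factorisations for which the digits of the coordinates of `x`
   (primitive), of the `y l` and of the `c i j`, read upwards or downwards, form words with `z`
   phrases: `x` is an integral point of the root stack over the `S`-integers, and
   `h_(K_𝒳(𝒟))(x) ≤ N^(1)(𝒟, x) + δ h(x) + excess(W) + C`. There is no restriction on the lengths of the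
   phrases and of their periods.

2. The same for coordinates and factors which are sums of `r` products `g v`, `g ∈ Γ`, `v` the value
   of a word with `z` phrases of integral letters of absolute value at most `B0`, of length `L`,
   `L log b ≤ M (1 + h(x))`, `Γ` a finitely generated group of rational numbers.

The proof: if no period of a phrase has a size between `δ' L` and `δ'' L`, then a product `D` of
numbers `b ^ π - 1` with `log D` at most a small multiple of `L` makes all `D x_a`, `D y l`, `D c i j`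
sums of boundedly many powers of the bases with small coefficients; one of finitely many scales
works. The theorem on sparse points (RootStacksSparse) is extended to points with such a common
denominator, which does not change the point and the factorisation.
-/

namespace Pool.Agent.Results.MP_a41896_nt.LempelZivPoints

open MvPolynomial Pool.Agent.R343.LP Pool.Agent.R343.LT
open Pool.Agent.Results.MP_a41896_nt.RootStacksSparse

/-- The result: (1) digits, (2) sums of products of elements of `Γ` and values of words. -/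
theorem result :
    (∀ (N s g q w p : ℕ) (G : Fin g → MvPolynomial (Fin (N + 1 + s)) ℤ) (e : Fin g → ℕ),
      (∀ k, (G k).IsHomogeneous (e k)) →
      ∀ (F : Fin q → Fin w → MvPolynomial (Fin (N + 1 + s)) ℤ) (d : Fin q → Fin w → ℕ),
      (∀ i j, (F i j).IsHomogeneous (d i j)) → DimGE N G → SmoothPair s G F →
      ∀ (I0 : Finset (Fin q)) (m : Fin q → ℕ), (∀ i ∈ I0, 1 ≤ m i) →
      ∀ ex : Fin q → Fin p → ℕ, (∀ i ∈ I0, ∀ l, m i ∣ ex i l) → (∀ l, ∃ i, ex i l ≠ 0) →
      ∀ (S : Finset ℕ) (bx : Fin (N + 1 + s) → ℕ) (bY : Fin p → ℕ) (bc : Fin q → Fin w → ℕ),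
      (∀ a, 2 ≤ bx a) → (∀ l, 2 ≤ bY l) → (∀ a j, 2 ≤ bc a j) → ∀ (z : ℕ) (δ : ℝ), 0 < δ →
      ∃ (Φ : MvPolynomial (Fin (N + 1 + s)) ℚ) (n : ℕ) (C : ℝ), Φ.IsHomogeneous n ∧
        NonZeroOn G Φ ∧ ∀ x : Fin (N + 1 + s) → ℤ, IsPrimitive x → OnX G x →
        (∀ a, LZDigits (bx a) z (x a)) → (∀ i, ∃ j, eval x (F i j) ≠ 0) →
        eval (fun a => (x a : ℚ)) Φ ≠ 0 →
        ∀ (y : Fin p → ℤ) (c : Fin q → Fin w → ℤ),
          (∀ l, LZDigits (bY l) z (y l)) → (∀ i j, LZDigits (bc i j) z (c i j)) →
          (∀ i j, eval x (F i j) = c i j * ∏ l, y l ^ (ex i l)) →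
          (∀ i ∈ I0, ∀ r : ℕ, r.Prime → (∀ j, (r : ℤ) ∣ c i j) → r ∈ S) →
          IsIntegralPoint S F I0 m x ∧
          ∀ A : Matrix (Fin (N + 1 + s)) (Fin (N + 1)) ℤ, IsTangentBasis G x A →
            stackHeight F d I0 m x A ≤ truncatedCounting F I0 S x + δ * Real.log (height x) +
              excess S ((∏ l ∈ Finset.univ.filter (fun l => ∀ i ∈ I0, ex i l = 0), y l) *
                ∏ i ∈ I0ᶜ, Finset.univ.gcd (c i)) + C) ∧
    (∀ (N s g q w p r : ℕ) (G : Fin g → MvPolynomial (Fin (N + 1 + s)) ℤ) (e : Fin g → ℕ),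
      (∀ k, (G k).IsHomogeneous (e k)) →
      ∀ (F : Fin q → Fin w → MvPolynomial (Fin (N + 1 + s)) ℤ) (d : Fin q → Fin w → ℕ),
      (∀ i j, (F i j).IsHomogeneous (d i j)) → DimGE N G → SmoothPair s G F →
      ∀ (I0 : Finset (Fin q)) (m : Fin q → ℕ), (∀ i ∈ I0, 1 ≤ m i) →
      ∀ ex : Fin q → Fin p → ℕ, (∀ i ∈ I0, ∀ l, m i ∣ ex i l) → (∀ l, ∃ i, ex i l ≠ 0) →
      ∀ Γ : Subgroup ℚˣ, Γ.FG → ∀ (S : Finset ℕ)
      (bx : Fin (N + 1 + s) → Fin r → ℕ) (bY : Fin p → Fin r → ℕ)
      (bc : Fin q → Fin w → Fin r → ℕ), (∀ a i, 2 ≤ bx a i) → (∀ l i, 2 ≤ bY l i) →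
      (∀ a j i, 2 ≤ bc a j i) → ∀ (z : ℕ) (B0 : ℤ), 0 ≤ B0 → ∀ M δ : ℝ, 0 ≤ M → 0 < δ →
      ∃ (Φ : MvPolynomial (Fin (N + 1 + s)) ℚ) (n : ℕ) (C : ℝ), Φ.IsHomogeneous n ∧
        NonZeroOn G Φ ∧ ∀ x : Fin (N + 1 + s) → ℤ, IsPrimitive x → OnX G x →
        (∀ a, CompR Γ (bx a) z B0 (M * (1 + Real.log (max 1 (height x)))) (x a)) →
        (∀ i, ∃ j, eval x (F i j) ≠ 0) → eval (fun a => (x a : ℚ)) Φ ≠ 0 →
        ∀ (y : Fin p → ℤ) (c : Fin q → Fin w → ℤ),
          (∀ l, CompR Γ (bY l) z B0 (M * (1 + Real.log (max 1 (height x)))) (y l)) →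
          (∀ i j, CompR Γ (bc i j) z B0 (M * (1 + Real.log (max 1 (height x)))) (c i j)) →
          (∀ i j, eval x (F i j) = c i j * ∏ l, y l ^ (ex i l)) →
          (∀ i ∈ I0, ∀ r : ℕ, r.Prime → (∀ j, (r : ℤ) ∣ c i j) → r ∈ S) →
          IsIntegralPoint S F I0 m x ∧
          ∀ A : Matrix (Fin (N + 1 + s)) (Fin (N + 1)) ℤ, IsTangentBasis G x A →
            stackHeight F d I0 m x A ≤ truncatedCounting F I0 S x + δ * Real.log (height x) +
              excess S ((∏ l ∈ Finset.univ.filter (fun l => ∀ i ∈ I0, ex i l = 0), y l) *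
                ∏ i ∈ I0ᶜ, Finset.univ.gcd (c i)) + C) :=
  ⟨fun N s g q w p G e hG F d hF hdim hsm I0 m hm ex hex hexl S bx bY bc hbx hbY hbc z δ hδ =>
      rootDigits N s g q w p G e hG F d hF hdim hsm I0 m hm ex hex hexl S bx bY bc hbx hbY hbc z δ
        hδ,
    fun N s g q w p r G e hG F d hF hdim hsm I0 m hm ex hex hexl Γ hΓ S bx bY bc hbx hbY hbc z B0
        hB0 M δ hM hδ =>
      rootLZ N s g q w p r G e hG F d hF hdim hsm I0 m hm ex hex hexl Γ hΓ S bx bY bc hbx hbY hbc
        z B0 hB0 M δ hM hδ⟩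

end Pool.Agent.Results.MP_a41896_nt.LempelZivPoints
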