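import Mathlib
import Pool.Agent.R870.RS.Main

set_option autoImplicit false

/-!
# Vojta's inequality for the integral points on almost all root stacks over projective space

`D_i : F_i = 0` (`i ≤ s`) are hypersurfaces of degrees `d_i` in `ℙ^n` over `ℚ`, `D = ∑ d_i ≥ 1`, and
`S` is a finite set of primes. For each `i` either `k_i = none` (a component of the divisor `𝒟`) or
`k_i = some m_i`, `m_i ∈ {1, 2, …, ∞}` (the stack has a root of order `m_i` along `D_i`; for `m_i = ∞`
the points are integral with respect to `D_i`). Let `c_i = 1`, respectively `c_i = 1 - 1 / m_i`.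

For all `ε > 0` and `κ < ∑ c_i` there are `δ > 0` and `C` such that for all `H ≥ 1`, for all but a
proportion `C H ^ (-δ)` of the systems `(F_1, …, F_s)` with integer coefficients of absolute value at
most `H`,

  `(∑ c_i d_i - n - 1 - ε) h(x) + κ log H ≤ ∑_{k_i = none} ∑_{p ∉ S, p ∣ F_i(x)} log p`

for ALL rational points `x` of height at most `H ^ ((∑ c_i + D - κ) / D)` outside of `𝒟` such that for
`k_i = some m_i` each prime `p ∉ S` dividing `F_i(x)` divides it at least `m_i` times. The integral
points of the root stack have this property, and `∑ c_i d_i - n - 1` is the degree of `K_𝒳 + 𝒟`.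
-/

namespace Pool.Agent.Results.MP_a41896_nt.RandomRootStacks

open Pool.Agent.R870.RC Pool.Agent.R870.RS

theorem result (n s : ℕ) (d : Fin s → ℕ) (hD : 1 ≤ ∑ i, d i) (k : Fin s → Option ℕ∞)
    (hk : ∀ i m, k i = some m → 1 ≤ m) (S : Finset ℕ) (hS : ∀ p ∈ S, p.Prime) (ε κ : ℝ)
    (hε : 0 < ε) (hκ : κ < ∑ i, co (k i)) : ∃ δ C : ℝ, 0 < δ ∧ ∀ H : ℕ, 1 ≤ H →
      ((BadS n d k S ε κ H).ncard : ℝ) ≤ C * (H : ℝ) ^ (-δ) * ((Systems n d H).ncard : ℝ) :=
  random_stacks n s d hD k hk S hS ε κ hε hκ

end Pool.Agent.Results.MP_a41896_nt.RandomRootStacks
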