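import Pool.Agent.R323.SE.K

/-!
# Integral points on root stacks of the projective line: at most `d` exceptions outside few classes

Let `d ≥ 1`, `A ≥ 1` and `ε > 0`. For primitive polynomials `f` with integer coefficients of absolute
value at most `Y`, of degree `d`, consider the root stacks `𝒳` of the projective line with a divisor `𝒟`
such that the stacky points, all of order at least `e₀`, and `𝒟` together form the reduced divisor
`D_f + ∞`. For all but at most `C * Y ^ ε` classes of `f` under translations `f (x + b)`, `b ∈ ℚ`, the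
truncated counting function of `𝒟` is larger than `δ log Y` at all but at most `d` integral points of
height at most `Y ^ A` of all these stacks, over all rings `ℤ[1 / p : p ∈ T]` such that the product of
the primes in `T` is at most `Y ^ δ`. The numbers `e₀`, `δ > 0` and `C` depend on `d`, `A` and `ε`
only. The number `d` of exceptions is optimal.
-/

set_option autoImplicit false

namespace Pool.Agent.Results.MP_a41896_nt.RootStacksFewClasses

/-- the value at `(a, b)` of the homogeneous form of degree `deg g` belonging to `g` -/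
def homValue (g : Polynomial ℤ) (a b : ℤ) : ℤ :=
  ∑ i ∈ Finset.range (g.natDegree + 1), g.coeff i * a ^ i * b ^ (g.natDegree - i)

/-- Let `𝒳` be the stack over the projective line which is stacky at the zeros of `f₁`, of order
`ord g` at the zero divisor of the irreducible factor `g` of `f₁`, and, if `j = 0`, at `∞`, of order
`o`. The rational number `x` is an integral point of `𝒳` outside the primes in `T`: for `p` not in
`T` the intersection multiplicity at `p` of `x` with each of the stacky components is divisible by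
the order of the component. -/
def IsIntegralPoint (f₁ : Polynomial ℤ) (ord : Polynomial ℤ → ℕ) (j o : ℕ) (T : Finset ℕ) (x : ℚ) :
    Prop :=
  (∀ g : Polynomial ℤ, Irreducible g → g ∣ f₁ → ∀ p : ℕ, p.Prime → p ∉ T →
    ord g ∣ (homValue g x.num x.den).natAbs.factorization p) ∧
  (j = 0 → ∀ p : ℕ, p.Prime → p ∉ T → o ∣ x.den.factorization p)

/-- The truncated counting function at `x`, outside the primes in `T`, of the divisor of the zeros
of `f₂` (if `j = 0`) or of the zeros of `f₂` and the point `∞` (if `j ≥ 1`): the sum of `log p` over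
the primes `p` not in `T` at which `x` meets the divisor. -/
noncomputable def truncatedCounting (f₂ : Polynomial ℤ) (j : ℕ) (T : Finset ℕ) (x : ℚ) : ℝ :=
  ∑ p ∈ ((homValue f₂ x.num x.den).natAbs * x.den ^ j).primeFactors \ T, Real.log p

/-- `g x = f (x + b)` for a rational number `b` -/
def TranslationEquivalent (f g : Polynomial ℤ) : Prop :=
  ∃ b : ℚ, g.map (Int.castRingHom ℚ) =
    (f.map (Int.castRingHom ℚ)).comp (Polynomial.X + Polynomial.C b)

theorem first_part (d A : ℕ) (hd : 1 ≤ d) (hA : 1 ≤ A) (ε : ℝ) (hε : 0 < ε) :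
    ∃ (e₀ : ℕ) (δ C : ℝ), 0 < δ ∧ ∀ Y : ℕ, 1 ≤ Y → ∀ S : Finset (Polynomial ℤ),
      (∀ f ∈ S, f.natDegree = d ∧ f.IsPrimitive ∧ (∀ i, |f.coeff i| ≤ (Y : ℤ)) ∧
        ∃ P : Finset ℚ, d < P.card ∧ ∀ x ∈ P, |x.num| ≤ (Y : ℤ) ^ A ∧ (x.den : ℤ) ≤ (Y : ℤ) ^ A ∧
          homValue f x.num x.den ≠ 0 ∧
          ∃ (f₁ f₂ : Polynomial ℤ) (ord : Polynomial ℤ → ℕ) (j o : ℕ) (T : Finset ℕ),
            f = f₁ * f₂ ∧ (∀ g, e₀ ≤ ord g) ∧ e₀ ≤ o ∧
            (∀ p ∈ T, p.Prime) ∧ ((∏ p ∈ T, p : ℕ) : ℝ) ≤ (Y : ℝ) ^ δ ∧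
            IsIntegralPoint f₁ ord j o T x ∧
            truncatedCounting f₂ j T x ≤ δ * Real.log (Y : ℝ)) →
      (∀ f ∈ S, ∀ g ∈ S, f ≠ g → ¬ TranslationEquivalent f g) →
      (S.card : ℝ) ≤ C * (Y : ℝ) ^ ε := by
  classical
  obtain ⟨m, δ, C, hδ, h⟩ := Pool.Agent.R323.SE.elem_full d A hd hA ε hε
  refine ⟨m, δ / 2, C, by positivity, fun Y hY S hS hAff => h Y hY S ?_ hAff⟩
  intro f hf
  have hYR : (1 : ℝ) ≤ Y := by exact_mod_cast hY
  obtain ⟨h1, -, h2, P, hP, hP2⟩ := hS f hf
  refine ⟨h1, h2, P, hP, fun x hx => ?_⟩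
  obtain ⟨h3, h4, h5, f₁, f₂, ord, j, o, T, hf12, hord, ho, hT, hTY, ⟨h6, h7⟩, h8⟩ := hP2 x hx
  have hf0 : f ≠ 0 := by
    rintro rfl
    rw [Polynomial.natDegree_zero] at h1
    omega
  have hf₁ : f₁ ≠ 0 := fun h0 => hf0 (by rw [hf12, h0, zero_mul])
  have hf₂ : f₂ ≠ 0 := fun h0 => hf0 (by rw [hf12, h0, mul_zero])
  have hb : (x.den : ℤ) ≠ 0 := by exact_mod_cast x.den_ne_zero
  have hmul : homValue f x.num x.den = homValue f₁ x.num x.den * homValue f₂ x.num x.den := by
    rw [hf12]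
    exact Pool.Agent.R323.SE.homValue_mul hf₁ hf₂ x.num hb
  have hv₁ : homValue f₁ x.num x.den ≠ 0 := fun h0 => h5 (by rw [hmul, h0, zero_mul])
  have hv₂ : homValue f₂ x.num x.den ≠ 0 := fun h0 => h5 (by rw [hmul, h0, mul_zero])
  have hn : (homValue f₂ x.num x.den).natAbs * x.den ^ j ≠ 0 :=
    mul_ne_zero (Int.natAbs_ne_zero.2 hv₂) (pow_ne_zero _ x.den_ne_zero)
  obtain ⟨Q, hQ⟩ : ∃ Q, Q = ((homValue f₂ x.num x.den).natAbs * x.den ^ j).primeFactors :=
    ⟨_, rfl⟩
  have hQp : ∀ p ∈ Q \ T, p.Prime := fun p hp => by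
    rw [hQ] at hp
    exact Nat.prime_of_mem_primeFactors (Finset.mem_sdiff.1 hp).1
  refine ⟨h3, h4, h5, T ∪ (Q \ T), ?_, ?_, fun p hp hpU hpd => ?_⟩
  · intro p hp
    rcases Finset.mem_union.1 hp with hp | hp
    · exact hT p hp
    · exact hQp p hp
  · rw [Finset.prod_union (Finset.disjoint_sdiff), Nat.cast_mul]
    have e1 : ((∏ p ∈ Q \ T, p : ℕ) : ℝ) ≤ (Y : ℝ) ^ (δ / 2) := by
      have e2 : (0 : ℝ) < ((∏ p ∈ Q \ T, p : ℕ) : ℝ) := by
        exact_mod_cast Finset.prod_pos fun p hp => (hQp p hp).pos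
      rw [← Real.log_le_log_iff e2 (by positivity), Real.log_rpow (by linarith), Nat.cast_prod,
        Real.log_prod fun p hp => by exact_mod_cast (hQp p hp).ne_zero]
      unfold truncatedCounting at h8
      rw [← hQ] at h8
      exact h8
    calc ((∏ p ∈ T, p : ℕ) : ℝ) * ((∏ p ∈ Q \ T, p : ℕ) : ℝ)
        ≤ (Y : ℝ) ^ (δ / 2) * (Y : ℝ) ^ (δ / 2) :=
          mul_le_mul hTY e1 (Nat.cast_nonneg _) (by positivity)
      _ = (Y : ℝ) ^ δ := by
          rw [← Real.rpow_add (by linarith)]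
          congr 1
          ring
  · have hpT : p ∉ T := fun h0 => hpU (Finset.mem_union_left _ h0)
    have hpQ : p ∉ Q := fun h0 => hpU (Finset.mem_union_right _ (Finset.mem_sdiff.2 ⟨h0, hpT⟩))
    have hp' : Prime (p : ℤ) := Nat.prime_iff_prime_int.1 hp
    rcases (hp.dvd_mul).1 hpd with h9 | h9
    · have h10 : (p : ℤ) ∣ homValue f₁ x.num x.den * homValue f₂ x.num x.den := by
        rw [← hmul]
        exact Int.natCast_dvd.2 h9
      rcases hp'.dvd_or_dvd h10 with h11 | h11
      · obtain ⟨g, hg, hgf, hpg⟩ := Pool.Agent.R323.SE.exists_factor hp x.num hb f₁ hf₁ h11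
        have h12 := h6 g hg hgf p hp hpT
        have hgv : homValue g x.num x.den ∣ homValue f₁ x.num x.den :=
          Pool.Agent.R323.SE.homValue_dvd hf₁ hgf x.num hb
        have hg0 : homValue g x.num x.den ≠ 0 := fun h0 => hv₁ (by
          rw [h0] at hgv
          exact zero_dvd_iff.1 hgv)
        have hg0' : (homValue g x.num x.den).natAbs ≠ 0 := Int.natAbs_ne_zero.2 hg0
        have h13 : 0 < (homValue g x.num x.den).natAbs.factorization p :=
          hp.factorization_pos_of_dvd hg0' (Int.natCast_dvd.1 hpg)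
        have h14 : m ≤ (homValue g x.num x.den).natAbs.factorization p :=
          (hord g).trans (Nat.le_of_dvd h13 h12)
        have h15 : p ^ m ∣ (homValue g x.num x.den).natAbs :=
          (hp.pow_dvd_iff_le_factorization hg0').2 h14
        have h16 : (homValue g x.num x.den).natAbs ∣ (homValue f x.num x.den).natAbs := by
          rw [hmul]
          exact Int.natAbs_dvd_natAbs.2 (hgv.mul_right _)
        exact (h15.trans h16).mul_right _
      · exact absurd (by
          rw [hQ]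
          exact Nat.mem_primeFactors.2 ⟨hp, (Int.natCast_dvd.1 h11).mul_right _, hn⟩) hpQ
    · rcases Nat.eq_zero_or_pos j with hj | hj
      · have h12 := h7 hj p hp hpT
        have h13 : 0 < x.den.factorization p := hp.factorization_pos_of_dvd x.den_ne_zero h9
        exact ((hp.pow_dvd_iff_le_factorization x.den_ne_zero).2
          (ho.trans (Nat.le_of_dvd h13 h12))).mul_left _
      · exact absurd (by
          rw [hQ]
          exact Nat.mem_primeFactors.2 ⟨hp, (h9.trans (dvd_pow_self _ (by omega))).mul_left _, hn⟩)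
            hpQ

/-- For `d ≥ 1`, `A ≥ 1` and `ε > 0` there are `e₀`, `δ > 0` and `C` such that for all `Y ≥ 1` there are
at most `C * Y ^ ε` pairwise translation inequivalent primitive polynomials `f` of degree `d` with
integer coefficients of absolute value at most `Y` for which more than `d` rational numbers `x` of
height at most `Y ^ A`, no zeros of `f`, are integral points with a truncated counting function at
most `δ log Y` on some stack: there are a factorisation `f = f₁ * f₂`, orders at least `e₀` for the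
irreducible factors of `f₁` and (if `j = 0`) for `∞`, and a set `T` of primes with product at most
`Y ^ δ`, such that `x` is an integral point outside `T` of the stack with these orders and the
truncated counting function outside `T` of the zeros of `f₂` and (if `j ≥ 1`) `∞` is at most
`δ log Y` at `x`. On the other hand, there are at least `Y / K` pairwise translation inequivalent
such `f` with `d` integers `x`, `|x| ≤ d`, which are integral points, with `T = ∅`, of the stacks
with stacky divisor `D_f + ∞` for all orders and with truncated counting function `0` for the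
divisor `D_f + ∞`. -/
theorem result (d A : ℕ) (hd : 1 ≤ d) (hA : 1 ≤ A) (ε : ℝ) (hε : 0 < ε) :
    (∃ (e₀ : ℕ) (δ C : ℝ), 0 < δ ∧ ∀ Y : ℕ, 1 ≤ Y → ∀ S : Finset (Polynomial ℤ),
      (∀ f ∈ S, f.natDegree = d ∧ f.IsPrimitive ∧ (∀ i, |f.coeff i| ≤ (Y : ℤ)) ∧
        ∃ P : Finset ℚ, d < P.card ∧ ∀ x ∈ P, |x.num| ≤ (Y : ℤ) ^ A ∧ (x.den : ℤ) ≤ (Y : ℤ) ^ A ∧
          homValue f x.num x.den ≠ 0 ∧
          ∃ (f₁ f₂ : Polynomial ℤ) (ord : Polynomial ℤ → ℕ) (j o : ℕ) (T : Finset ℕ),
            f = f₁ * f₂ ∧ (∀ g, e₀ ≤ ord g) ∧ e₀ ≤ o ∧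
            (∀ p ∈ T, p.Prime) ∧ ((∏ p ∈ T, p : ℕ) : ℝ) ≤ (Y : ℝ) ^ δ ∧
            IsIntegralPoint f₁ ord j o T x ∧
            truncatedCounting f₂ j T x ≤ δ * Real.log (Y : ℝ)) →
      (∀ f ∈ S, ∀ g ∈ S, f ≠ g → ¬ TranslationEquivalent f g) →
      (S.card : ℝ) ≤ C * (Y : ℝ) ^ ε) ∧
    ∃ K : ℕ, 1 ≤ K ∧ ∀ Y : ℕ, 1 ≤ Y → ∃ S : Finset (Polynomial ℤ), Y / K ≤ S.card ∧
      (∀ f ∈ S, f.natDegree = d ∧ f.IsPrimitive ∧ (∀ i, |f.coeff i| ≤ (Y : ℤ)) ∧
        ∃ P : Finset ℚ, P.card = d ∧ ∀ x ∈ P, |x.num| ≤ (d : ℤ) ∧ x.den = 1 ∧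
          homValue f x.num x.den ≠ 0 ∧
          (∀ (ord : Polynomial ℤ → ℕ) (o : ℕ), IsIntegralPoint f ord 0 o ∅ x) ∧
          truncatedCounting f 1 ∅ x = 0) ∧
      ∀ f ∈ S, ∀ g ∈ S, f ≠ g → ¬ TranslationEquivalent f g := by
  classical
  refine ⟨first_part d A hd hA ε hε, ?_⟩
  obtain ⟨K, hK, h⟩ := Pool.Agent.R323.SE.many_one d hd
  refine ⟨K, hK, fun Y hY => ?_⟩
  obtain ⟨S, hS1, hS2, hS3⟩ := h Y hY
  refine ⟨S, hS1, fun f hf => ?_, hS3⟩
  obtain ⟨h1, h2, h3, P, hP, hP2⟩ := hS2 f hf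
  refine ⟨h1, h2, h3, P, hP, fun x hx => ?_⟩
  obtain ⟨h4, h5, h6⟩ := hP2 x hx
  have h6' : homValue f x.num x.den = 1 := h6
  have hf0 : f ≠ 0 := by
    rintro rfl
    rw [Polynomial.natDegree_zero] at h1
    omega
  have hb : (x.den : ℤ) ≠ 0 := by exact_mod_cast x.den_ne_zero
  refine ⟨h4, h5, by rw [h6']; exact one_ne_zero, fun ord o => ⟨fun g hg hgf p hp _ => ?_,
    fun _ p hp _ => ?_⟩, ?_⟩
  · have h7 : homValue g x.num x.den ∣ 1 := by
      rw [← h6]
      exact Pool.Agent.R323.SE.homValue_dvd hf0 hgf x.num hb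
    have h8 : (homValue g x.num x.den).natAbs = 1 := Int.natAbs_of_isUnit (isUnit_of_dvd_one h7)
    rw [h8, Nat.factorization_one, Finsupp.zero_apply]
    exact dvd_zero _
  · rw [h5, Nat.factorization_one, Finsupp.zero_apply]
    exact dvd_zero _
  · unfold truncatedCounting
    rw [h6', h5]
    simp

end Pool.Agent.Results.MP_a41896_nt.RootStacksFewClasses
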