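import Pool.Agent.Results.MP_a41896_nt.StackyWindows
import Pool.Agent.R482.ST.Star

/-!
# Vojta's conjecture for root stacks of projective spaces at all points of height near powers, orbits and other sequences

Let `f_n`, `n = 0, 1, 2, …`, be positive functions on `(a, ∞)`, `a ≥ 0`, such that `f_n(t) / t` is nondecreasing, and such
that the sequence `f_n(t)` has exponent of convergence at most `τ` for each `t > a`: for instance `f_n(t) = t ^ (v_n)` for
exponents `v_n ≥ 1` (`τ = 0`; all powers, the powers `t ^ (3 ^ n)` of Mills, …), the orbits `f_n(t) = g (g (⋯ g (t)))` of any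
map `g` with `g(t) > t` and `g(t) / t` nondecreasing (`τ = 0`; for instance of `t² + c`), and `f_n(t) = v_n t`.
Let `a_0, …, a_{r-1}` be linear forms in `n + 1` variables over a number field `K`, any `n + 1` of them linearly independent,
`κ ≥ 0` and `θ < 1`. For all `α > a` outside a set of Hausdorff dimension at most
`(exponent(n, r, κ) / (n + 1) + τ) / (1 - θ)` and all `c`, `c'`, for all but finitely many `k`, for ALL points `x ∈ ℙ^n(K)` off
the hyperplanes with `|H_K(x) ^ (n + 1) - f_k(α)| ≤ c' f_k(α) ^ θ`, ALL number fields `L ⊇ K`, ALL orders `e_i` such that `x`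
comes from an integral point over `L` of the root stack of order `e_i` along `H_i`, and ALL sets `J` of indices
`(κ - ∑_{i ∉ J} 1 / e_i) h(x) ≤ N^{(1)}(𝒟_J, x) + d(L) - c`.
-/

set_option autoImplicit false

namespace Pool.Agent.Results.MP_a41896_nt.StarshapedWindows

open NumberField IsDedekindDomain LinearAlgebra.Projectivization
open StackyProjectiveSpaces (lin height truncated Integral logDisc exponent exceptional)
open StackyWindows (expo_lt expo_nonneg count)

/-- the functions `f n` are positive on `(a, ∞)`, `a ≥ 0`, and `f n x / x` is nondecreasing there -/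
def Starshaped (a : ℝ) (f : ℕ → ℝ → ℝ) : Prop :=
  0 ≤ a ∧ ∀ n : ℕ, ∀ x y : ℝ, a < x → x ≤ y → 0 < f n x ∧ f n x / x ≤ f n y / y

/-- for each `x > a` the exponent of convergence of the sequence `f n x` is at most `τ` -/
def ExpLe (a : ℝ) (f : ℕ → ℝ → ℝ) (τ : ℝ) : Prop :=
  ∀ x : ℝ, a < x → ∀ t : ℝ, τ < t → Summable (fun n : ℕ => (f n x) ^ (-t))

/-- **Theorem.** Let `K` be a number field, `n ≥ 1`, `r ≥ n + 1`, `a_0, …, a_{r-1}` linear forms in `n + 1` variables
over `K`, any `n + 1` of them linearly independent, `S` a finite set of primes and `κ ≥ 0`. (The exponent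
`exponent(n, r, κ)` is smaller than `n + 1` for `κ < r`.) Let `f` be starshaped functions on `(a₀, ∞)` of exponent of
convergence at most `τ ≥ 0` and `θ < 1`. There is a set `E` of Hausdorff dimension at most
`(exponent(n, r, κ) / (n + 1) + τ) / (1 - θ)` such that for each `α > a₀` outside `E` and all `c`, `c'`, for all but finitely
many `k`: for ALL `x ∈ ℙ^n(K)` off the hyperplanes with `|H_K(x) ^ (n + 1) - f_k(α)| ≤ c' f_k(α) ^ θ`, ALL number fields `L`
which contain `K`, ALL orders `e_i ≥ 1` such that `x` comes from an integral point over the `S`-integers of `L` of the root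
stack with orders `e_i`, and ALL sets `J` of indices `(κ - ∑_{i ∉ J} 1 / e_i) h(x) ≤ N^{(1)}(𝒟_J, x) + d(L) - c`.
The functions `v_n x`, `v_n > 0`, are starshaped on `(0, ∞)`, of exponent `τ` if `v` has exponent of convergence at most
`τ`; the functions `x ^ (v_n)`, `v_n ≥ 1`, are starshaped on `(1, ∞)`, of exponent `0` if the sums of `exp (-t v_n)` converge
for `t > 0`; and the iterates of a map `g` with `g(x) > x` for `x > a` and `g(x) / x` nondecreasing are starshaped on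
`(a, ∞)`, of exponent `0`. -/
theorem result :
    (∀ (K : Type) [Field K] [NumberField K] (n r : ℕ), 1 ≤ n → n + 1 ≤ r → ∀ a : Fin r → Fin (n + 1) → K,
      (∀ I : Finset (Fin r), I.card = n + 1 → LinearIndependent K (fun i : I => a i)) →
      ∀ (S : Finset (HeightOneSpectrum (𝓞 K))) (κ : ℝ), 0 ≤ κ →
      (κ < r → exponent n r κ < n + 1) ∧
      ∀ (a₀ : ℝ) (f : ℕ → ℝ → ℝ) (τ θ : ℝ), Starshaped a₀ f → 0 ≤ τ → ExpLe a₀ f τ → θ < 1 →
      ∃ E : Set ℝ, dimH E ≤ ENNReal.ofReal ((exponent n r κ / (n + 1) + τ) / (1 - θ)) ∧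
        ∀ α : ℝ, a₀ < α → α ∉ E → ∀ c c' : ℝ, ∃ k₀ : ℕ, ∀ k : ℕ, k₀ ≤ k → ∀ x : ℙ K (Fin (n + 1) → K),
          (∀ i, lin (a i) x.rep ≠ 0) → |x.mulHeight ^ (n + 1) - f k α| ≤ c' * (f k α) ^ θ →
            ∀ (L : Type) [Field L] [NumberField L] [Algebra K L] (e : Fin r → ℕ) (J : Finset (Fin r)),
              (∀ i, 1 ≤ e i) → Integral L S a e x →
                (κ - ∑ i ∈ Jᶜ, 1 / (e i : ℝ)) * height x ≤ truncated L S a J x + logDisc L - c) ∧
    (∀ (v : ℕ → ℝ) (τ : ℝ), (∀ n, 0 < v n) → (∀ t : ℝ, τ < t → Summable (fun n : ℕ => (v n) ^ (-t))) →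
      Starshaped 0 (fun n x => v n * x) ∧ ExpLe 0 (fun n x => v n * x) τ) ∧
    (∀ v : ℕ → ℝ, (∀ n, 1 ≤ v n) → (∀ t : ℝ, 0 < t → Summable fun n : ℕ => Real.exp (-(t * v n))) →
      Starshaped 1 (fun n x => x ^ (v n)) ∧ ExpLe 1 (fun n x => x ^ (v n)) 0) ∧
    (∀ (a : ℝ) (g : ℝ → ℝ), 0 ≤ a → (∀ x y : ℝ, a < x → x ≤ y → g x / x ≤ g y / y) → (∀ x : ℝ, a < x → x < g x) →
      Starshaped a (fun n x => g^[n] x) ∧ ExpLe a (fun n x => g^[n] x) 0) := by
  refine ⟨fun K _ _ n r hn hr a ha S κ hκ => ⟨fun h => expo_lt hn hr h, fun a₀ f τ θ hf hτ hE hθ1 => ?_⟩,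
    Pool.Agent.R482.ST.ex_mul, Pool.Agent.R482.ST.ex_pow,
    Pool.Agent.R482.ST.ex_orbit⟩
  have hs : 0 ≤ exponent n r κ / (n + 1) := div_nonneg (expo_nonneg hn hr hκ) (by positivity)
  have hall : ∀ m : ℕ, ∃ E : Set ℝ, dimH E ≤ ENNReal.ofReal ((exponent n r κ / (n + 1) + τ) / (1 - θ)) ∧
      ∀ α : ℝ, a₀ < α → α ∉ E → ∀ c' : ℝ, ∃ n0 : ℕ, ∀ n' : ℕ, n0 ≤ n' →
        ∀ x ∈ (⋃ B : ℝ, exceptional S a κ (-(m : ℝ)) B),
          c' * (f n' α) ^ θ < |x.mulHeight ^ (n + 1) - f n' α| := fun m =>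
    Pool.Agent.R482.ST.windows (⋃ B : ℝ, exceptional S a κ (-(m : ℝ)) B) (fun x => x.mulHeight ^ (n + 1)) hf hτ hE
      hs hθ1 (fun ε hε => count K hn hr a ha S κ (-(m : ℝ)) ε hκ hε)
  choose E hE1 hE2 using hall
  refine ⟨⋃ m, E m, ?_, fun α hα hαE c c' => ?_⟩
  · rw [dimH_iUnion]
    exact iSup_le hE1
  · obtain ⟨m, hm⟩ := exists_nat_ge c
    obtain ⟨k₀, hk⟩ := hE2 m α hα (fun h => hαE (Set.mem_iUnion.2 ⟨m, h⟩)) c'
    refine ⟨k₀, fun k hk1 x hx hw L _ _ _ e J he hint => ?_⟩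
    by_contra hcon
    push Not at hcon
    refine absurd (hk k hk1 x (Set.mem_iUnion.2 ⟨Real.exp (height x), hx, le_refl _, L, inferInstance, inferInstance,
      inferInstance, e, J, he, hint, ?_⟩)) (not_lt.2 hw)
    linarith

end Pool.Agent.Results.MP_a41896_nt.StarshapedWindows
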